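import Pool.Agent.Helper86.AN.Stmts

/-! MP_4042d8_co: module INN (inner vertices of the arc colourings). -/

set_option autoImplicit false

namespace Pool.Agent.Helper14.AN

open Pool.Agent.Helper86.AN Finset

/-- the common argument: `x` is the tile vertex, `u q` the kink of colour `b` -/
theorem inn_core (hRF : ST_RF) {V : Type} [Fintype V] [DecidableEq V] (s : Equiv.Perm V)
    (A : Finset V) (m w : V → V) (u : Bool → V) (K : V → Bool) (b q : Bool) (x y : V)
    (hK : KD s A m w u) (hx : x ∈ Ap A u) (hy : y ∈ Ap A u)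
    (h1 : K x = b) (h2 : K (w x) = b) (h3 : K y = !b) (h4 : K (w y) = !b)
    (h5 : ∀ v ∈ Ap A u, v ≠ x → v ≠ w x → v ≠ y → v ≠ w y → K (w v) = !(K v))
    (h6 : K (u q) = b) (h7 : K (u (!q)) = !b) (v : V) :
    v ∈ inn s A K b ↔ ((v = x ∨ v = w x) ∧ K (rr s w v) = b) ∨
      (v = u q ∧ K (s v) = b ∧ K (s.symm v) = b) := by
  obtain ⟨r1, r2, r3, r4, r5, r6, r7, r8, r9⟩ := hRF V s A m w u hK
  have hbb : ∀ b : Bool, b ≠ !b := by decide
  have hwx : w x ∈ Ap A u ∧ w (w x) = x ∧ w x ≠ x := hK.winv x hx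
  have hwy : w y ∈ Ap A u ∧ w (w y) = y ∧ w y ≠ y := hK.winv y hy
  by_cases hv : v ∈ Ap A u
  · have hv2 := (r2 v).1 hv
    rw [r8 v hv K b]
    constructor
    · rintro ⟨a1, a2, a3⟩
      refine Or.inl ⟨?_, a3⟩
      by_contra hne
      have n1 : v ≠ x := fun h => hne (Or.inl h)
      have n2 : v ≠ w x := fun h => hne (Or.inr h)
      by_cases n3 : v = y
      · rw [n3, h3] at a1
        exact hbb b a1.symm
      · by_cases n4 : v = w y
        · rw [n4, h4] at a1
          exact hbb b a1.symm
        · have h8 := h5 v hv n1 n2 n3 n4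
          rw [a1, a2] at h8
          exact hbb b h8
    · rintro (⟨a1 | a1, a2⟩ | ⟨a1, -⟩)
      · refine ⟨?_, ?_, a2⟩
        · rw [a1, h1]
        · rw [a1, h2]
      · refine ⟨?_, ?_, a2⟩
        · rw [a1, h2]
        · rw [a1, hwx.2.1, h1]
      · exact absurd a1 (hv2.2 q)
  · by_cases hA : v ∈ A
    · have hu : ∃ i, v = u i := by
        by_contra hne
        push Not at hne
        exact hv ((r2 v).2 ⟨hA, hne⟩)
      obtain ⟨i, hi⟩ := hu
      have hcase : ∀ i q : Bool, i = q ∨ i = !q := by decide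
      rcases hcase i q with e | e
      · rw [e] at hi
        rw [hi, r9 q K b]
        constructor
        · rintro ⟨-, a2, a3⟩
          exact Or.inr ⟨rfl, a2, a3⟩
        · rintro (⟨a1 | a1, -⟩ | ⟨-, a2, a3⟩)
          · rw [hi, a1] at hv
            exact absurd hx hv
          · rw [hi, a1] at hv
            exact absurd hwx.1 hv
          · exact ⟨h6, a2, a3⟩
      · rw [e] at hi
        rw [hi, r9 (!q) K b]
        constructor
        · rintro ⟨a1, -⟩
          rw [h7] at a1
          exact absurd a1.symm (hbb b)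
        · rintro (⟨a1 | a1, -⟩ | ⟨a1, -⟩)
          · rw [hi, a1] at hv
            exact absurd hx hv
          · rw [hi, a1] at hv
            exact absurd hwx.1 hv
          · exact absurd a1.symm (r4 q)
    · constructor
      · intro h
        exact absurd (mem_filter.1 h).1 hA
      · rintro (⟨a1 | a1, -⟩ | ⟨a1, -⟩)
        · rw [a1] at hv
          exact absurd hx hv
        · rw [a1] at hv
          exact absurd hwx.1 hv
        · rw [a1] at hA
          exact absurd (hK.uA q) hA

theorem st_INN (hRF : ST_RF) (hCOL : ST_COL) (_ : ST_ENVF) : ST_INN := by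
  intro V _ _ s A m w u n e c i a j hK hZ hE haj hjn v
  obtain ⟨c1, c2, c3, c4, c5, c6, c7, c8⟩ := hCOL V s A m w u n e c i a j hK hZ hE haj hjn
  have hea : e a = e (a + n) := by
    rw [hZ.per]
    exact ⟨-1, by ring⟩
  have k1 : col w u e i c a j (e a) = true := by
    rw [hea]
    exact (c2 (a + n) (by linarith [hZ.npos]) le_rfl).2 hjn
  have k2 : col w u e i c a j (w (e a)) = true := (c3 a le_rfl (by linarith [hZ.npos])).2 haj
  have k3 : col w u e i c a j (e j) = false := by
    rw [← Bool.not_eq_true]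
    intro h
    exact absurd ((c2 j haj hjn.le).1 h) (lt_irrefl j)
  have k4 : col w u e i c a j (w (e j)) = false := by
    rw [← Bool.not_eq_true]
    intro h
    exact absurd ((c3 j haj.le hjn).1 h) (lt_irrefl j)
  constructor
  · exact inn_core hRF s A m w u _ true (!i) (e a) (e j) hK (hZ.eA a) (hZ.eA j) k1 k2 k3 k4
      (fun v hv n1 n2 n3 n4 => c4 v hv n1 n2 n3 n4) c8 (by rw [Bool.not_not]; exact c7) v
  · exact inn_core hRF s A m w u _ false i (e j) (e a) hK (hZ.eA j) (hZ.eA a) k3 k4 k1 k2
      (fun v hv n1 n2 n3 n4 => c4 v hv n3 n4 n1 n2) c7 c8 v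

end Pool.Agent.Helper14.AN
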