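import Pool.Agent.Helper86.AN.Stmts

/-! MP_4042d8_co: module K1 (two odd cycles). -/

set_option autoImplicit false

namespace Pool.Agent.Helper14.AN

open Pool.Agent.Helper86.AN Finset

theorem st_K1 (h1 : ST_KEX) (h2 : ST_STK) (h3 : ST_SRT) (h4 : ST_ALT) (h5 : ST_ADJ) : ST_K1 := by
  intro V _ _ s m a b hab ha hb hp hm
  obtain ⟨w, u, hK⟩ := h1 V s m a b hab ha hb hp hm
  by_contra hg
  obtain ⟨n, e, c, hZ, hE, hn⟩ := h2 V s _ m w u hK hg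
  obtain ⟨i, a', b', c', d', l1, l2, l3, l4, hS⟩ := h3 V s _ m w u n e hK hZ hn
  rcases hS with ⟨s1, s2⟩ | ⟨s1, s2⟩
  · exact hg (h4 V s _ m w u n e c i a' b' c' d' hK hZ hE l1 l2 l3 l4 s1 s2)
  · exact hg (h5 V s _ m w u n e c i a' b' c' d' hK hZ hE l1 l2 l3 l4 s1 s2)

end Pool.Agent.Helper14.AN
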