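import Pool.Agent.Helper86.AN.Stmts

/-! MP_4042d8_co: module LX (one special tile and one generic tile). -/

set_option autoImplicit false

namespace Pool.Agent.Helper14.AN

open Pool.Agent.Helper86.AN Finset

theorem st_LX (hEV : ST_EV) (hRF : ST_RF) (hCOL : ST_COL) (hINN : ST_INN) (hENVF : ST_ENVF) :
    ST_LX := by
  intro V _ _ s A m w u n e c i a j a' c₁ c₂ hK hZ hE haj hjn hS1 hS2 hej g1 g2 g3 g4 g5
  obtain ⟨r1, r2, r3, r4, r5, r6, r7, r8, r9⟩ := hRF V s A m w u hK
  obtain ⟨c1, c2, c3, c4, c5, c6, c7, c8⟩ := hCOL V s A m w u n e c i a j hK hZ hE haj hjn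
  obtain ⟨d1, d2, d3, d4, d5, d6, d7, d8⟩ := hCOL V s A m w u n e c (!i) a j hK hZ hE haj hjn
  obtain ⟨f1, f2, f3, f4, -⟩ := hENVF V s A m w u n e c hK hZ hE
  have hI := hINN V s A m w u n e c i a j hK hZ hE haj hjn
  have hI' := hINN V s A m w u n e c (!i) a j hK hZ hE haj hjn
  rw [Bool.not_not] at d8 hI'
  have hea : e a = e (a + n) := by
    rw [hZ.per]
    exact ⟨-1, by ring⟩
  have k1 : col w u e i c a j (e a) = true := by
    rw [hea]
    exact (c2 (a + n) (by linarith [hZ.npos]) le_rfl).2 hjn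
  -- the neighbours of the kinks
  have nb : ∀ (i' : Bool) (v : V), (v = s (u i') ∨ v = s.symm (u i')) → ∃ k, v = e k := by
    intro i' v hv
    have hcase : ∀ i' i : Bool, i' = i ∨ i' = !i := by decide
    rcases hcase i' i with h | h
    · rw [h] at hv
      rcases hS1 with ⟨h1, h2⟩ | ⟨h1, h2⟩
      · rcases hv with hv | hv
        · exact ⟨a, by rw [hv, h1]⟩
        · exact ⟨a', by rw [hv, h2]⟩
      · rcases hv with hv | hv
        · exact ⟨a', by rw [hv, h1]⟩
        · exact ⟨a, by rw [hv, h2]⟩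
    · rw [h] at hv
      rcases hS2 with ⟨h1, h2⟩ | ⟨h1, h2⟩
      · rcases hv with hv | hv
        · exact ⟨c₁, by rw [hv, h1]⟩
        · exact ⟨c₂, by rw [hv, h2]⟩
      · rcases hv with hv | hv
        · exact ⟨c₂, by rw [hv, h1]⟩
        · exact ⟨c₁, by rw [hv, h2]⟩
  have rAp : ∀ v ∈ Ap A u, (∀ i', ¬ (v = s (u i') ∨ v = s.symm (u i'))) → rr s w v ∈ Ap A u := by
    intro v hv h
    rw [r2]
    refine ⟨(r5 v hv).1, fun i' h2 => ?_⟩
    exact h i' ((r6 v hv i').1 h2)
  have rw1 : ∀ k, rr s w (w (e k)) ∈ Ap A u := by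
    intro k
    refine rAp _ (hK.winv _ (hZ.eA k)).1 (fun i' h => ?_)
    obtain ⟨l, hl⟩ := nb i' _ h
    exact f3 l k hl.symm
  have rw2 : rr s w (e j) ∈ Ap A u := by
    refine rAp _ (hZ.eA j) (fun i' h => ?_)
    rcases h with h | h
    · exact (hej i').1 h
    · exact (hej i').2 h
  have rea : rr s w (e a) = u i := by
    rw [r6 _ (hZ.eA a)]
    rcases hS1 with ⟨h1, -⟩ | ⟨-, h1⟩
    · exact Or.inl h1
    · exact Or.inr h1
  have hper := hK.per
  by_cases hc : col w u e i c a j (rr s w (w (e j))) = false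
  · refine ⟨col w u e (!i) c a j, d1, ?_⟩
    refine hEV V s A m _ hK.sinv hK.per hK.minv d1 (Or.inr (Or.inl ⟨e a, w (e j), ?_, ?_⟩))
    · ext v
      rw [(hI' v).1, mem_singleton]
      constructor
      · rintro (⟨h1 | h1, h2⟩ | ⟨h1, h2, h3⟩)
        · exact h1
        · rw [h1, c6 _ (rw1 a), g4] at h2
          exact absurd h2 (by decide)
        · exfalso
          have g1' : col w u e (!i) c a j (e a') = false := by rw [c6 _ (hZ.eA a'), g1]
          rw [h1] at h2 h3
          rcases hS1 with ⟨-, h4⟩ | ⟨h4, -⟩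
          · rw [← h4, g1'] at h3
            exact absurd h3 (by decide)
          · rw [← h4, g1'] at h2
            exact absurd h2 (by decide)
      · intro h1
        refine Or.inl ⟨Or.inl h1, ?_⟩
        rw [h1, rea]
        exact d8
    · ext v
      rw [(hI' v).2, mem_singleton]
      constructor
      · rintro (⟨h1 | h1, h2⟩ | ⟨h1, h2, h3⟩)
        · rw [h1, c6 _ rw2, g5] at h2
          exact absurd h2 (by decide)
        · exact h1
        · exfalso
          have g2' : col w u e (!i) c a j (e c₁) = true := by rw [c6 _ (hZ.eA c₁), g2]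
          rw [h1] at h2 h3
          rcases hS2 with ⟨h4, -⟩ | ⟨-, h4⟩
          · rw [← h4, g2'] at h2
            exact absurd h2 (by decide)
          · rw [← h4, g2'] at h3
            exact absurd h3 (by decide)
      · intro h1
        refine Or.inl ⟨Or.inr h1, ?_⟩
        rw [h1, c6 _ (rw1 j), hc]
  · rw [Bool.not_eq_false] at hc
    refine ⟨col w u e i c a j, c1, ?_⟩
    refine hEV V s A m _ hK.sinv hK.per hK.minv c1 (Or.inl ⟨?_, ?_⟩)
    · rw [eq_empty_iff_forall_notMem]
      intro v hv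
      rw [(hI v).1] at hv
      rcases hv with ⟨h1 | h1, h2⟩ | ⟨h1, h2, h3⟩
      · rw [h1, rea, c7] at h2
        exact absurd h2 (by decide)
      · rw [h1, g4] at h2
        exact absurd h2 (by decide)
      · rw [h1] at h2 h3
        rcases hS2 with ⟨-, h4⟩ | ⟨h4, -⟩
        · rw [← h4, g3] at h3
          exact absurd h3 (by decide)
        · rw [← h4, g3] at h2
          exact absurd h2 (by decide)
    · rw [eq_empty_iff_forall_notMem]
      intro v hv
      rw [(hI v).2] at hv
      rcases hv with ⟨h1 | h1, h2⟩ | ⟨h1, h2, h3⟩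
      · rw [h1, g5] at h2
        exact absurd h2 (by decide)
      · rw [h1, hc] at h2
        exact absurd h2 (by decide)
      · rw [h1] at h2 h3
        rcases hS1 with ⟨h4, -⟩ | ⟨-, h4⟩
        · rw [← h4, k1] at h2
          exact absurd h2 (by decide)
        · rw [← h4, k1] at h3
          exact absurd h3 (by decide)

end Pool.Agent.Helper14.AN
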