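import Pool.Agent.Helper86.AN.Stmts

/-! MP_4042d8_co: module TBAL (tiled cycles are balanced). -/

set_option autoImplicit false

namespace Pool.Agent.Helper14.AN

open Pool.Agent.Helper86.AN Finset

theorem st_TBAL (h1 : ST_EV) : ST_TBAL := by
  intro V _ _ s S w c hS hP hW hw hB
  have key : ∀ b, inn s S c b = ∅ := by
    intro b
    rw [eq_empty_iff_forall_notMem]
    intro v hv
    obtain ⟨a0, a1, a2, a3⟩ := mem_filter.1 hv
    have h2 := hB v a0
    have hbb : ∀ b : Bool, b ≠ !b := by decide
    rcases hw v a0 with h3 | h3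
    · rw [h3, a2, a1] at h2
      exact hbb b h2
    · rw [h3, a3, a1] at h2
      exact hbb b h2
  exact h1 V s S w c hS hP hW hB (Or.inl ⟨key true, key false⟩)

end Pool.Agent.Helper14.AN
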