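import Pool.Agent.Helper86.AN.Stmts

/-! MP_4042d8_co: module TIL (tilings of cycles). -/

set_option autoImplicit false

namespace Pool.Agent.Helper14.AN

open Pool.Agent.Helper86.AN Finset

theorem til_core {V : Type} (s : Equiv.Perm V) (f : ℕ → V) (hf : ∀ i, f (i + 1) = s (f i))
    (p b : ℕ) (inj : ∀ i j, i < p → j < p → f i = f j → i = j) (T : Finset V)
    (hT : ∀ v, v ∈ T ↔ ∃ i, b ≤ i ∧ i < p ∧ f i = v) (hp : Even (p - b)) (_ : b ≤ p) :
    ∃ w : V → V, InvOn T w ∧ ∀ v ∈ T, w v = s v ∨ w v = s.symm v := by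
  classical
  have hb : ∀ i, s.symm (f (i + 1)) = f i := by
    intro i
    rw [hf, Equiv.symm_apply_apply]
  let w : V → V := fun v => if h : ∃ i, b ≤ i ∧ i < p ∧ f i = v then
    (if Even (h.choose - b) then s v else s.symm v) else v
  have hw : ∀ i, b ≤ i → i < p → w (f i) = if Even (i - b) then s (f i) else s.symm (f i) := by
    intro i h1 h2
    have h : ∃ j, b ≤ j ∧ j < p ∧ f j = f i := ⟨i, h1, h2, rfl⟩
    have hc := h.choose_spec
    have e : h.choose = i := inj _ _ hc.2.1 h2 hc.2.2
    change (if h : ∃ j, b ≤ j ∧ j < p ∧ f j = f i then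
      (if Even (h.choose - b) then s (f i) else s.symm (f i)) else f i) = _
    rw [dif_pos h, e]
  have key : ∀ i, b ≤ i → i < p → ∃ j, b ≤ j ∧ j < p ∧ w (f i) = f j ∧ w (f j) = f i ∧ j ≠ i := by
    intro i h1 h2
    by_cases he : Even (i - b)
    · have h3 : i + 1 < p := by
        obtain ⟨x, hx⟩ := he
        obtain ⟨y, hy⟩ := hp
        omega
      have h4 : ¬ Even (i + 1 - b) := by
        obtain ⟨x, hx⟩ := he
        rintro ⟨y, hy⟩
        omega
      refine ⟨i + 1, by omega, h3, ?_, ?_, by omega⟩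
      · rw [hw i h1 h2, if_pos he, hf]
      · rw [hw (i + 1) (by omega) h3, if_neg h4, hb]
    · have h3 : b + 1 ≤ i := by
        by_contra hlt
        apply he
        have e : i - b = 0 := by omega
        rw [e]
        exact Even.zero
      obtain ⟨j, rfl⟩ : ∃ j, i = j + 1 := ⟨i - 1, by omega⟩
      have h4 : Even (j - b) := by
        rw [Nat.not_even_iff_odd] at he
        obtain ⟨x, hx⟩ := he
        exact ⟨x, by omega⟩
      refine ⟨j, by omega, by omega, ?_, ?_, by omega⟩
      · rw [hw (j + 1) h1 h2, if_neg he, hb]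
      · rw [hw j (by omega) (by omega), if_pos h4, hf]
  refine ⟨w, ?_, ?_⟩
  · intro v hv
    obtain ⟨i, h1, h2, rfl⟩ := (hT v).1 hv
    obtain ⟨j, h3, h4, h5, h6, h7⟩ := key i h1 h2
    refine ⟨?_, ?_, ?_⟩
    · rw [h5, hT]
      exact ⟨j, h3, h4, rfl⟩
    · rw [h5, h6]
    · rw [h5]
      intro h8
      exact h7 (inj j i h4 h2 h8)
  · intro v hv
    obtain ⟨i, h1, h2, rfl⟩ := (hT v).1 hv
    rw [hw i h1 h2]
    split_ifs
    · exact Or.inl rfl
    · exact Or.inr rfl

/-- the cycle through `a` as a sequence -/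
theorem til_orb {V : Type} [Fintype V] [DecidableEq V] (s : Equiv.Perm V) (a : V) :
    ∃ f : ℕ → V, f 0 = a ∧ (∀ i, f (i + 1) = s (f i)) ∧
    (∀ i j, i < (orb s a).card → j < (orb s a).card → f i = f j → i = j) ∧
    (∀ v, v ∈ orb s a ↔ ∃ i, i < (orb s a).card ∧ f i = v) ∧ 0 < (orb s a).card := by
  classical
  have hper : a ∈ Function.periodicPts s := by
    refine Function.mk_mem_periodicPts (orderOf_pos s) ?_
    unfold Function.IsPeriodicPt Function.IsFixedPt
    rw [← Equiv.Perm.coe_pow, pow_orderOf_eq_one]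
    rfl
  have hpos := Function.minimalPeriod_pos_of_mem_periodicPts hper
  let f : ℕ → V := fun i => (⇑s)^[i] a
  have hinj : ∀ i j, i < Function.minimalPeriod s a → j < Function.minimalPeriod s a →
      f i = f j → i = j := by
    intro i j hi hj h
    exact Function.iterate_injOn_Iio_minimalPeriod hi hj h
  have hmem : ∀ v, v ∈ orb s a ↔ ∃ i, i < Function.minimalPeriod s a ∧ f i = v := by
    intro v
    unfold orb
    rw [mem_filter]
    constructor
    · rintro ⟨-, h⟩
      obtain ⟨i, hi⟩ := Equiv.Perm.SameCycle.exists_nat_pow_eq h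
      refine ⟨i % Function.minimalPeriod s a, Nat.mod_lt _ hpos, ?_⟩
      change (⇑s)^[i % Function.minimalPeriod s a] a = v
      rw [Function.iterate_mod_minimalPeriod_eq, ← Equiv.Perm.coe_pow]
      exact hi
    · rintro ⟨i, -, hi⟩
      refine ⟨mem_univ _, ⟨(i : ℤ), ?_⟩⟩
      rw [zpow_natCast, Equiv.Perm.coe_pow]
      exact hi
  have hcard : (orb s a).card = Function.minimalPeriod s a := by
    have e : orb s a = (range (Function.minimalPeriod s a)).image f := by
      ext v
      rw [hmem, mem_image]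
      constructor
      · rintro ⟨i, hi, h⟩
        exact ⟨i, mem_range.2 hi, h⟩
      · rintro ⟨i, hi, h⟩
        exact ⟨i, mem_range.1 hi, h⟩
    rw [e, card_image_of_injOn, card_range]
    intro i hi j hj h
    exact hinj i j (by simpa using hi) (by simpa using hj) h
  refine ⟨f, rfl, ?_, ?_, ?_, ?_⟩
  · intro i
    exact Function.iterate_succ_apply' s i a
  · rw [hcard]
    exact hinj
  · rw [hcard]
    exact hmem
  · rw [hcard]
    exact hpos

theorem st_TIL : ST_TIL := by
  intro V _ _ s a
  obtain ⟨f, h0, hf, hinj, hmem, hpos⟩ := til_orb s a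
  constructor
  · intro he
    refine til_core s f hf (orb s a).card 0 hinj (orb s a) ?_ (by simpa using he) (Nat.zero_le _)
    intro v
    rw [hmem]
    constructor
    · rintro ⟨i, h1, h2⟩
      exact ⟨i, Nat.zero_le _, h1, h2⟩
    · rintro ⟨i, -, h1, h2⟩
      exact ⟨i, h1, h2⟩
  · intro ho
    refine til_core s f hf (orb s a).card 1 hinj ((orb s a).erase a) ?_ ?_ hpos
    · intro v
      rw [mem_erase, hmem]
      constructor
      · rintro ⟨h1, i, h2, h3⟩
        refine ⟨i, ?_, h2, h3⟩
        by_contra h4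
        have e : i = 0 := by omega
        rw [e, h0] at h3
        exact h1 h3.symm
      · rintro ⟨i, h1, h2, h3⟩
        refine ⟨?_, i, h2, h3⟩
        intro h4
        have e : i = 0 := hinj i 0 h2 hpos (by rw [h3, h4, h0])
        omega
    · obtain ⟨x, hx⟩ := ho
      exact ⟨x, by omega⟩

end Pool.Agent.Helper14.AN
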